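import Pool.Agent.TH25.IF.Main

/-!
The divisibility condition is sufficient (and necessary) for complete equipartite graphs.
The vertex set of the complete equipartite graph with `r` parts of size `n` is `Fin r × Fin n`,
the first coordinate being the part.
-/

set_option autoImplicit false

namespace Pool.Agent.Results.MP_3a76f9_co.EquipartiteDivisibility

open Pool.Agent.TH25.IF

/-- For all `r, n, t ≥ 1`: `t` divides the number `n ^ 2 * r.choose 2` of edges of the complete
equipartite graph with `r` parts of size `n` if and only if its edges can be distributed over `t`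
pairwise isomorphic spanning subgraphs `F i`. -/
theorem result (r n t : ℕ) (_hr : 1 ≤ r) (hn : 1 ≤ n) (ht : 1 ≤ t) :
    t ∣ n ^ 2 * r.choose 2 ↔
      ∃ F : Fin t → SimpleGraph (Fin r × Fin n),
        (∀ i v w, (F i).Adj v w → v.1 ≠ w.1) ∧
        (∀ v w, v.1 ≠ w.1 → ∃! i, (F i).Adj v w) ∧
        ∀ i j, Nonempty (F i ≃g F j) :=
  main3 r n t hn ht

end Pool.Agent.Results.MP_3a76f9_co.EquipartiteDivisibility
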